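import Pool.Agent.H74.G.R_seed8.Y504.CO.Stm2

/-!
Project CO of helper504, job NC, by helper929: no cycles (induction on the length).
-/

set_option autoImplicit false
set_option linter.unusedSectionVars false
set_option linter.unusedVariables false

open scoped Manifold ContDiff Topology
open Filter Set Metric

universe u

namespace Pool.Agent.Y929.CO

open Pool.Agent.H718R2.G Pool.Agent.TH80.OMS Pool.Agent.Y504.CO

section dyn

variable {X : Type u} {f : X → X}

lemma orb_self (p : X) : p ∈ orb f p := ⟨0, rfl⟩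

lemma orb_fwd {y p : X} (h : y ∈ orb f p) : f y ∈ orb f p := by
  obtain ⟨i, rfl⟩ := h
  exact ⟨i + 1, Function.iterate_succ_apply' f i p⟩

lemma orb_inv (hf : Function.Injective f) {p y : X} (hp : p ∈ Per f) (h : f y ∈ orb f p) :
    y ∈ orb f p := by
  obtain ⟨m, hm, hmp⟩ := hp
  obtain ⟨i, hi⟩ := h
  have hi' : f^[i] p = f y := hi
  refine ⟨i + (m - 1), hf ?_⟩
  show f (f^[i + (m - 1)] p) = f y
  rw [← Function.iterate_succ_apply' f, ← hi']
  have e : (i + (m - 1)).succ = i + m := by omega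
  rw [e, Function.iterate_add_apply, hmp]

lemma orb_finite {p : X} (hp : p ∈ Per f) : (orb f p).Finite := by
  obtain ⟨m, hm, hmp⟩ := hp
  refine ((Set.finite_lt_nat m).image (fun i => f^[i] p)).subset ?_
  rintro _ ⟨i, rfl⟩
  exact ⟨i % m, Nat.mod_lt _ hm, Function.IsPeriodicPt.iterate_mod_apply
    (show Function.IsPeriodicPt f m p from hmp) i⟩

lemma full_nat {x : ℤ → X} (hx : ∀ j, f (x j) = x (j + 1)) (j : ℤ) (m : ℕ) :
    f^[m] (x j) = x (j + m) := by
  induction m with
  | zero => simp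
  | succ m ih =>
    rw [Function.iterate_succ_apply', ih, hx]
    congr 1
    push_cast
    ring

lemma full_eq (hf : Function.Injective f) {x y : ℤ → X} (hx : ∀ j, f (x j) = x (j + 1))
    (hy : ∀ j, f (y j) = y (j + 1)) {a b : ℤ} (h : x a = y b) (m : ℤ) :
    x (a + m) = y (b + m) := by
  rcases le_total 0 m with hm | hm
  · obtain ⟨n, rfl⟩ := Int.eq_ofNat_of_zero_le hm
    rw [← full_nat hx, ← full_nat hy, h]
  · obtain ⟨n, hn⟩ := Int.eq_ofNat_of_zero_le (neg_nonneg.2 hm)
    apply hf.iterate n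
    rw [full_nat hx, full_nat hy]
    have e1 : a + m + n = a := by omega
    have e2 : b + m + n = b := by omega
    rw [e1, e2, h]

lemma full_orb (hf : Function.Injective f) {x : ℤ → X} (hx : ∀ j, f (x j) = x (j + 1)) {p : X}
    (hp : p ∈ Per f) {a : ℤ} (h : x a ∈ orb f p) (b : ℤ) : x b ∈ orb f p := by
  have h1 : ∀ (n : ℕ) (c : ℤ), x c ∈ orb f p → x (c + n) ∈ orb f p := by
    intro n
    induction n with
    | zero => intro c hc; simpa using hc
    | succ n ih =>
      intro c hc
      have h2 := orb_fwd (ih c hc)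
      rw [hx] at h2
      have e : c + ((n + 1 : ℕ) : ℤ) = c + n + 1 := by push_cast; ring
      rw [e]
      exact h2
  have h2 : ∀ (n : ℕ) (c : ℤ), x c ∈ orb f p → x (c - n) ∈ orb f p := by
    intro n
    induction n with
    | zero => intro c hc; simpa using hc
    | succ n ih =>
      intro c hc
      apply orb_inv hf hp
      rw [hx]
      have e : c - ((n + 1 : ℕ) : ℤ) + 1 = c - n := by push_cast; ring
      rw [e]
      exact ih c hc
  rcases le_total a b with hab | hab
  · obtain ⟨n, hn⟩ := Int.eq_ofNat_of_zero_le (sub_nonneg.2 hab)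
    have e : b = a + n := by omega
    rw [e]
    exact h1 n a h
  · obtain ⟨n, hn⟩ := Int.eq_ofNat_of_zero_le (sub_nonneg.2 hab)
    have e : b = a - n := by omega
    rw [e]
    exact h2 n a h

/-- the next index -/
def nx (K i : ℕ) : ℕ := if i < K then i + 1 else 0

variable [TopologicalSpace X]

/-- a cycle with full orbits -/
structure Dat (f : X → X) (K : ℕ) (p : ℕ → X) (x : ℕ → ℤ → X) : Prop where
  per : ∀ i ≤ K, p i ∈ Per f
  dis : ∀ i ≤ K, ∀ j ≤ K, i ≠ j → Disjoint (orb f (p i)) (orb f (p j))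
  full : ∀ i ≤ K, ∀ j, f (x i j) = x i (j + 1)
  bot : ∀ i ≤ K, ∀ O : Set X, IsOpen O → orb f (p i) ⊆ O → ∀ᶠ j : ℤ in atBot, x i j ∈ O
  top : ∀ i ≤ K, ∀ O : Set X, IsOpen O → orb f (p (nx K i)) ⊆ O → ∀ᶠ j : ℤ in atTop, x i j ∈ O
  off : ∀ i ≤ K, x i 0 ∉ orb f (p i)

lemma cyc_dat {K : ℕ} (h : Cyc f K) : ∃ p x, Dat f K p x := by
  obtain ⟨p, z, hper, hdis, hc, hk⟩ := h
  have hcn : ∀ i ≤ K, Conn f (z i) (p i) (p (nx K i)) := by
    intro i hi
    unfold nx
    split_ifs with h1
    · exact hc i h1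
    · have : i = K := by omega
      rw [this]
      exact hk
  have hx : ∀ i, ∃ x : ℤ → X, i ≤ K → (∀ j, f (x j) = x (j + 1)) ∧ x 0 = z i ∧
      ∀ O : Set X, IsOpen O → orb f (p i) ⊆ O → ∀ᶠ j : ℤ in atBot, x j ∈ O := by
    intro i
    by_cases hi : i ≤ K
    · obtain ⟨x, h1, h2, h3⟩ := (hcn i hi).2.2.1
      exact ⟨x, fun _ => ⟨h1, h2, h3⟩⟩
    · exact ⟨fun _ => z i, fun h => absurd h hi⟩
  choose x hx using hx
  refine ⟨p, x, hper, hdis, fun i hi => (hx i hi).1, fun i hi => (hx i hi).2.2, ?_, ?_⟩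
  · intro i hi O hO hpO
    obtain ⟨A, hA⟩ := eventually_atTop.1 ((hcn i hi).2.2.2 O hO hpO)
    rw [eventually_atTop]
    refine ⟨A, fun j hj => ?_⟩
    obtain ⟨n, hn⟩ := Int.eq_ofNat_of_zero_le (show 0 ≤ j by omega)
    have h1 := hA n (by omega)
    rw [← (hx i hi).2.1, full_nat (hx i hi).1] at h1
    rw [hn]
    simpa using h1
  · intro i hi
    rw [(hx i hi).2.1]
    exact (hcn i hi).1

variable [T2Space X]

lemma orb_closed {p : X} (hp : p ∈ Per f) : IsClosed (orb f p) := (orb_finite hp).isClosed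

/-- a full orbit which comes from the orbit of `p` does not meet a disjoint periodic orbit -/
lemma off_of_disjoint (hf : Function.Injective f) {x : ℤ → X} (hx : ∀ j, f (x j) = x (j + 1))
    {p q : X} (hq : q ∈ Per f)
    (hb : ∀ O : Set X, IsOpen O → orb f p ⊆ O → ∀ᶠ j : ℤ in atBot, x j ∈ O)
    (hd : Disjoint (orb f p) (orb f q)) (a : ℤ) : x a ∉ orb f q := by
  intro h
  obtain ⟨j, hj⟩ := (hb (orb f q)ᶜ (orb_closed hq).isOpen_compl
    (Set.disjoint_left.1 hd : ∀ y, y ∈ orb f p → y ∉ orb f q)).exists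
  exact hj (full_orb hf hx hq h j)

/-- it is injective -/
lemma inj_of_off (hf : Function.Injective f) {x : ℤ → X} (hx : ∀ j, f (x j) = x (j + 1))
    {p : X}
    (hb : ∀ O : Set X, IsOpen O → orb f p ⊆ O → ∀ᶠ j : ℤ in atBot, x j ∈ O)
    (h0 : x 0 ∉ orb f p) {j : ℤ} (hj : x j = x 0) : j = 0 := by
  by_contra hne
  have hper : ∀ m, x (j + m) = x m := by
    intro m
    have := full_eq hf hx hx hj m
    rwa [zero_add] at this
  -- a positive period
  obtain ⟨d, hd, hdp⟩ : ∃ d : ℤ, 0 < d ∧ ∀ m, x (m - d) = x m := by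
    rcases lt_or_gt_of_ne hne with h | h
    · refine ⟨-j, by omega, fun m => ?_⟩
      have e : m - -j = j + m := by ring
      rw [e, hper]
    · refine ⟨j, h, fun m => ?_⟩
      have h1 := hper (m - j)
      have e : j + (m - j) = m := by ring
      rw [e] at h1
      exact h1.symm
  have hn : ∀ n : ℕ, x (-(n * d)) = x 0 := by
    intro n
    induction n with
    | zero => simp
    | succ n ih =>
      have e : -(((n + 1 : ℕ) : ℤ) * d) = -(n * d) - d := by push_cast; ring
      rw [e, hdp, ih]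
  obtain ⟨A, hA⟩ := eventually_atBot.1 (hb {x 0}ᶜ isOpen_compl_singleton
    (fun y hy h => h0 (by rw [← (h : y = x 0)]; exact hy)))
  refine hA (-((A.natAbs : ℤ) * d)) ?_ (hn _)
  have h1 : (A.natAbs : ℤ) ≤ A.natAbs * d := by nlinarith [Int.natCast_nonneg A.natAbs]
  omega

/-- full orbits which come from disjoint periodic orbits are disjoint -/
lemma ne_of_disjoint (hf : Function.Injective f) {x y : ℤ → X} (hx : ∀ j, f (x j) = x (j + 1))
    (hy : ∀ j, f (y j) = y (j + 1)) {p q : X} (hp : p ∈ Per f) (hq : q ∈ Per f)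
    (hb : ∀ O : Set X, IsOpen O → orb f p ⊆ O → ∀ᶠ j : ℤ in atBot, x j ∈ O)
    (hb' : ∀ O : Set X, IsOpen O → orb f q ⊆ O → ∀ᶠ j : ℤ in atBot, y j ∈ O)
    (hd : Disjoint (orb f p) (orb f q)) (a b : ℤ) : x a ≠ y b := by
  intro h
  obtain ⟨A, B, hA, hB, hpA, hqB, hAB⟩ :=
    SeparatedNhds.of_isCompact_isCompact (orb_finite hp).isCompact (orb_finite hq).isCompact hd
  obtain ⟨M, hM⟩ := eventually_atBot.1 (hb A hA hpA)
  obtain ⟨M', hM'⟩ := eventually_atBot.1 (hb' B hB hqB)
  have h1 := full_eq hf hx hy h (min (M - a) (M' - b))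
  have h2 := hM (a + min (M - a) (M' - b)) (by omega)
  have h3 := hM' (b + min (M - a) (M' - b)) (by omega)
  rw [h1] at h2
  exact Set.disjoint_left.1 hAB h2 h3

/-- closed sets -/
lemma closed_img [CompactSpace X] {K : Set X} (hK : IsClosed K) {x : ℤ → X}
    (hb : ∀ O : Set X, IsOpen O → K ⊆ O → ∀ᶠ j : ℤ in atBot, x j ∈ O)
    (ht : ∀ O : Set X, IsOpen O → K ⊆ O → ∀ᶠ j : ℤ in atTop, x j ∈ O) (T : Set ℤ) :
    IsClosed (K ∪ x '' T) := by
  rw [← closure_subset_iff_isClosed]
  intro y hy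
  by_contra hny
  rw [Set.mem_union, not_or] at hny
  obtain ⟨hyK, hyT⟩ := hny
  obtain ⟨t, ht1, ht2, ht3⟩ := exists_mem_nhds_isClosed_subset (hK.isOpen_compl.mem_nhds hyK)
  have hO : K ⊆ tᶜ := fun w hw hwt => ht3 hwt hw
  obtain ⟨A, hA⟩ := eventually_atBot.1 (hb tᶜ ht2.isOpen_compl hO)
  obtain ⟨B, hB⟩ := eventually_atTop.1 (ht tᶜ ht2.isOpen_compl hO)
  have hfin : (x '' (T ∩ Set.Icc A B)).Finite := ((Set.finite_Icc A B).inter_of_right T).image x
  have hnb : interior t ∩ (x '' (T ∩ Set.Icc A B))ᶜ ∈ 𝓝 y := by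
    refine Filter.inter_mem (isOpen_interior.mem_nhds (mem_interior_iff_mem_nhds.2 ht1)) ?_
    refine hfin.isClosed.isOpen_compl.mem_nhds ?_
    rintro ⟨j, hj, rfl⟩
    exact hyT ⟨j, hj.1, rfl⟩
  obtain ⟨w, ⟨hw1, hw2⟩, hw3⟩ := mem_closure_iff_nhds.1 hy _ hnb
  have hwt : w ∈ t := interior_subset hw1
  rcases hw3 with h | ⟨j, hj, rfl⟩
  · exact hO h hwt
  · apply hw2
    refine ⟨j, ⟨hj, ?_, ?_⟩, rfl⟩
    · by_contra h
      exact hA j (by omega) hwt
    · by_contra h
      exact hB j (by omega) hwt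

/-- the set which is not changed -/
def CC (f : X → X) (K : ℕ) (p : ℕ → X) (x : ℕ → ℤ → X) : Set X :=
  ⋃ i ∈ Finset.range (K + 1), ((⋃ l ∈ Finset.range (K + 1), orb f (p l)) ∪
    x i '' {j : ℤ | 2 ≤ i ∨ j ≠ 0})

lemma nx_le {K i : ℕ} : nx K i ≤ K := by
  unfold nx
  split_ifs with h
  · omega
  · omega

section dat

variable {K : ℕ} {p : ℕ → X} {x : ℕ → ℤ → X} (D : Dat f K p x)
include D

lemma dat_off (hf : Function.Injective f) {i : ℕ} (hi : i ≤ K) (a : ℤ) {l : ℕ} (hl : l ≤ K) :
    x i a ∉ orb f (p l) := by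
  by_cases hil : i = l
  · subst hil
    intro h
    exact D.off i hi (full_orb hf (D.full i hi) (D.per i hi) h 0)
  · exact off_of_disjoint hf (D.full i hi) (D.per l hl) (D.bot i hi) (D.dis i hi l hl hil) a

lemma cc_closed [CompactSpace X] : IsClosed (CC f K p x) := by
  have hK : IsClosed (⋃ l ∈ Finset.range (K + 1), orb f (p l)) := by
    refine Set.Finite.isClosed_biUnion (Finset.finite_toSet _) fun l hl => ?_
    exact orb_closed (D.per l (by
      have := Finset.mem_range.1 (Finset.mem_coe.1 hl)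
      omega))
  have hsub : ∀ l ≤ K, orb f (p l) ⊆ ⋃ l ∈ Finset.range (K + 1), orb f (p l) := fun l hl y hy =>
    Set.mem_biUnion (Finset.mem_range.2 (by omega)) hy
  unfold CC
  refine Set.Finite.isClosed_biUnion (Finset.finite_toSet _) fun i hi => ?_
  have hi' : i ≤ K := by
    have := Finset.mem_range.1 (Finset.mem_coe.1 hi)
    omega
  refine closed_img hK (fun O hO h => D.bot i hi' O hO ((hsub i hi').trans h))
    (fun O hO h => D.top i hi' O hO ((hsub _ nx_le).trans h)) _

lemma orb_cc {l : ℕ} (hl : l ≤ K) : orb f (p l) ⊆ CC f K p x := by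
  intro y hy
  unfold CC
  refine Set.mem_biUnion (Finset.mem_range.2 (show 0 < K + 1 by omega)) (Or.inl ?_)
  exact Set.mem_biUnion (Finset.mem_range.2 (by omega)) hy

lemma img_cc {i : ℕ} (hi : i ≤ K) {j : ℤ} (h : 2 ≤ i ∨ j ≠ 0) : x i j ∈ CC f K p x := by
  unfold CC
  exact Set.mem_biUnion (Finset.mem_range.2 (show i < K + 1 by omega)) (Or.inr ⟨j, h, rfl⟩)

lemma not_cc (hf : Function.Injective f) {i : ℕ} (hi : i ≤ K) (hi2 : i < 2) :
    x i 0 ∉ CC f K p x := by
  intro h
  unfold CC at h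
  rw [Set.mem_iUnion₂] at h
  obtain ⟨l, hl, h⟩ := h
  rw [Finset.mem_range] at hl
  rcases h with h | ⟨j, hj, hjx⟩
  · rw [Set.mem_iUnion₂] at h
    obtain ⟨l', hl', h⟩ := h
    rw [Finset.mem_range] at hl'
    exact dat_off D hf hi 0 (by omega) h
  · by_cases hil : i = l
    · subst hil
      rcases hj with hj | hj
      · omega
      · exact hj (inj_of_off hf (D.full i hi) (D.bot i hi) (D.off i hi) hjx)
    · exact ne_of_disjoint hf (D.full l (by omega)) (D.full i hi) (D.per l (by omega))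
        (D.per i hi) (D.bot l (by omega)) (D.bot i hi)
        (D.dis l (by omega) i hi (Ne.symm hil)) j 0 hjx

end dat

lemma dat_cyc {K : ℕ} {p : ℕ → X} {x : ℕ → ℤ → X} (hf : Function.Injective f)
    (D : Dat f K p x) : Cyc f K := by
  have hcn : ∀ i ≤ K, Conn f (x i 0) (p i) (p (nx K i)) := by
    intro i hi
    refine ⟨D.off i hi, dat_off D hf hi 0 nx_le, ⟨x i, D.full i hi, rfl, D.bot i hi⟩, ?_⟩
    intro O hO hpO
    obtain ⟨A, hA⟩ := eventually_atTop.1 (D.top i hi O hO hpO)
    rw [eventually_atTop]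
    refine ⟨A.toNat, fun j hj => ?_⟩
    rw [full_nat (D.full i hi), zero_add]
    exact hA j (by omega)
  refine ⟨p, fun i => x i 0, D.per, D.dis, fun i hi => ?_, ?_⟩
  · have h1 := hcn i hi.le
    unfold nx at h1
    rwa [if_pos hi] at h1
  · have h1 := hcn K le_rfl
    unfold nx at h1
    rwa [if_neg (lt_irrefl K)] at h1

/-- one step: the map is changed near two points -/
lemma dat_step {k : ℕ} {p : ℕ → X} {x : ℕ → ℤ → X} (D : Dat f (k + 1) p x)
    (hf : Function.Injective f) {g : X → X} (hg : ∀ y ∈ CC f (k + 1) p x, g y = f y) {m : ℕ}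
    (hm : g^[m + 1] (x 0 0) = x 1 1) :
    ∃ p' x', Dat g k p' x' := by
  -- the orbits which do not change
  have horb : ∀ l ≤ k + 1, ∀ j : ℕ, g^[j] (p l) = f^[j] (p l) := by
    intro l hl j
    induction j with
    | zero => rfl
    | succ j ih =>
      rw [Function.iterate_succ_apply', Function.iterate_succ_apply', ih]
      exact hg _ (orb_cc D hl ⟨j, rfl⟩)
  have horb2 : ∀ l ≤ k + 1, orb g (p l) = orb f (p l) := by
    intro l hl
    unfold orb
    congr 1
    funext j
    exact horb l hl j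
  have hper : ∀ l ≤ k + 1, p l ∈ Per g := by
    intro l hl
    obtain ⟨m, hm, hmp⟩ := D.per l hl
    exact ⟨m, hm, by rw [horb l hl, hmp]⟩
  -- the new orbit
  obtain ⟨y, hy⟩ : ∃ y : ℤ → X, y = fun j => if j ≤ 0 then x 0 j else g^[j.toNat] (x 0 0) :=
    ⟨_, rfl⟩
  have hy1 : ∀ j, j ≤ 0 → y j = x 0 j := fun j hj => by rw [hy]; exact if_pos hj
  have hy2 : ∀ j, 0 ≤ j → y j = g^[j.toNat] (x 0 0) := by
    intro j hj
    rcases eq_or_lt_of_le hj with h | h
    · rw [← h, hy1 0 le_rfl]
      rfl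
    · rw [hy]
      exact if_neg (by omega)
  have hyf : ∀ j, g (y j) = y (j + 1) := by
    intro j
    rcases lt_or_ge j 0 with h | h
    · rw [hy1 j h.le, hy1 (j + 1) (by omega), hg _ (img_cc D (by omega) (Or.inr h.ne)),
        D.full 0 (by omega)]
    · rw [hy2 j h, hy2 (j + 1) (by omega)]
      have e : (j + 1).toNat = j.toNat + 1 := by omega
      rw [e, Function.iterate_succ_apply']
  have hfar : ∀ n : ℕ, g^[n + (m + 1)] (x 0 0) = x 1 (n + 1) := by
    intro n
    induction n with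
    | zero => rw [zero_add, hm]; simp
    | succ n ih =>
      have e : n + 1 + (m + 1) = (n + (m + 1)) + 1 := by ring
      rw [e, Function.iterate_succ_apply', ih, hg _ (img_cc D (by omega) (Or.inr (by omega))),
        D.full 1 (by omega)]
      congr 1
  have hytop : ∀ j : ℤ, (m : ℤ) + 1 ≤ j → y j = x 1 (j - m) := by
    intro j hj
    rw [hy2 j (by omega)]
    have e : j.toNat = (j - m - 1).toNat + (m + 1) := by omega
    rw [e, hfar]
    congr 1
    omega
  refine ⟨fun i => if i = 0 then p 0 else p (i + 1), fun i => if i = 0 then y else x (i + 1),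
    ?_, ?_, ?_, ?_, ?_, ?_⟩
  · intro i hi
    split_ifs with h
    · exact hper 0 (by omega)
    · exact hper (i + 1) (by omega)
  · intro i hi j hj hij
    split_ifs with h h' h'
    · omega
    · rw [horb2 0 (by omega), horb2 (j + 1) (by omega)]
      exact D.dis _ (by omega) _ (by omega) (by omega)
    · rw [horb2 0 (by omega), horb2 (i + 1) (by omega)]
      exact D.dis _ (by omega) _ (by omega) (by omega)
    · rw [horb2 (i + 1) (by omega), horb2 (j + 1) (by omega)]
      exact D.dis _ (by omega) _ (by omega) (by omega)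
  · intro i hi j
    split_ifs with h
    · exact hyf j
    · rw [hg _ (img_cc D (by omega) (Or.inl (by omega))), D.full (i + 1) (by omega)]
  · intro i hi O hO hpO
    beta_reduce at hpO ⊢
    split_ifs with h
    · rw [if_pos h, horb2 0 (by omega)] at hpO
      filter_upwards [D.bot 0 (by omega) O hO hpO, eventually_le_atBot (0 : ℤ)] with j hj hj0
      rw [hy1 j hj0]
      exact hj
    · rw [if_neg h, horb2 (i + 1) (by omega)] at hpO
      exact D.bot (i + 1) (by omega) O hO hpO
  · intro i hi O hO hpO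
    beta_reduce at hpO ⊢
    split_ifs with h
    · subst h
      have hpO' : orb f (p (nx (k + 1) 1)) ⊆ O := by
        rw [← horb2 _ nx_le]
        refine Eq.trans_subset ?_ hpO
        congr 1
        unfold nx
        by_cases hk : 0 < k
        · rw [if_pos hk, if_pos (by omega : 1 < k + 1), if_neg (by omega)]
        · rw [if_neg hk, if_neg (by omega : ¬ 1 < k + 1), if_pos rfl]
      obtain ⟨A, hA⟩ := eventually_atTop.1 (D.top 1 (by omega) O hO hpO')
      rw [eventually_atTop]
      refine ⟨max (A + m) (m + 1), fun j hj => ?_⟩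
      rw [hytop j (by omega)]
      exact hA _ (by omega)
    · have hpO' : orb f (p (nx (k + 1) (i + 1))) ⊆ O := by
        rw [← horb2 _ nx_le]
        refine Eq.trans_subset ?_ hpO
        congr 1
        unfold nx
        by_cases hk : i < k
        · rw [if_pos hk, if_pos (by omega : i + 1 < k + 1), if_neg (by omega)]
        · rw [if_neg hk, if_neg (by omega : ¬ i + 1 < k + 1), if_pos rfl]
      exact D.top (i + 1) (by omega) O hO hpO'
  · intro i hi
    split_ifs with h
    · rw [horb2 0 (by omega), hy1 0 le_rfl]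
      exact D.off 0 (by omega)
    · rw [horb2 (i + 1) (by omega)]
      exact D.off (i + 1) (by omega)

end dyn

theorem main (hP : S_P2.{u}) (hL : S_LINK.{u}) : S_NC.{u} := by
  intro n N _ _ _ _ _ r hr U hU hyp hnh
  suffices h : ∀ k : ℕ, ∀ g ∈ U, ¬ Cyc g k from fun g hg k => h k g hg
  intro k
  induction k with
  | zero =>
    rintro g hg ⟨p, z, hper, hdis, hc, hk⟩
    exact hnh g hg (p 0) (z 0) ⟨hper 0 le_rfl, hk.1, hk.2.2.1, hk.2.2.2⟩
  | succ k ih =>
    intro g hg hc
    obtain ⟨p, x, D⟩ := cyc_dat hc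
    have hgi : Function.Injective g := g.injective
    have hC := cc_closed D
    have h0 := not_cc D hgi (i := 0) (by omega) (by omega)
    have h1 := not_cc D hgi (i := 1) (by omega) (by omega)
    have h01 : x 0 0 ≠ x 1 0 := ne_of_disjoint hgi (D.full 0 (by omega)) (D.full 1 (by omega))
      (D.per 0 (by omega)) (D.per 1 (by omega)) (D.bot 0 (by omega)) (D.bot 1 (by omega))
      (D.dis 0 (by omega) 1 (by omega) (by omega)) 0 0
    -- neighbourhoods
    obtain ⟨A, B, hA, hB, hzA, hzB, hAB⟩ := t2_separation h01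
    obtain ⟨t0, ht0, ht0c, ht0s⟩ := exists_mem_nhds_isClosed_subset
      (Filter.inter_mem (hC.isOpen_compl.mem_nhds h0) (hA.mem_nhds hzA))
    obtain ⟨t1, ht1, ht1c, ht1s⟩ := exists_mem_nhds_isClosed_subset
      (Filter.inter_mem (hC.isOpen_compl.mem_nhds h1) (hB.mem_nhds hzB))
    have hCO : CC g (k + 1) p x ⊆ (t0 ∪ t1)ᶜ := by
      rintro y hy (h | h)
      · exact (ht0s h).1 hy
      · exact (ht1s h).1 hy
    obtain ⟨W, hW, W', hW', hPW⟩ := hP n N r hr g U hU hg (x 0 0) (x 1 0) (interior t0)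
      (interior t1) isOpen_interior isOpen_interior (mem_interior_iff_mem_nhds.2 ht0)
      (mem_interior_iff_mem_nhds.2 ht1) (by
        rw [Set.disjoint_left]
        intro y hy hy'
        exact Set.disjoint_left.1 hAB (ht0s (interior_subset hy)).2 (ht1s (interior_subset hy')).2)
    have hcn : OmegaTo g (x 0 0) (p 1) := by
      intro O hO hpO
      have e : nx (k + 1) 0 = 1 := by
        unfold nx
        rw [if_pos (by omega)]
      obtain ⟨M, hM⟩ := eventually_atTop.1 (D.top 0 (by omega) O hO (by rw [e]; exact hpO))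
      rw [eventually_atTop]
      refine ⟨M.toNat, fun j hj => ?_⟩
      rw [full_nat (D.full 0 (by omega)), zero_add]
      exact hM j (by omega)
    obtain ⟨s', hs', m, hm, hms, hmid⟩ := hL n N r hr g (p 1) (D.per 1 (by omega))
      (hyp g hg (p 1) (D.per 1 (by omega))) (x 0 0) (x 1) hcn
      (dat_off D hgi (by omega) 0 (by omega)) (D.full 1 (by omega)) (D.bot 1 (by omega))
      (D.off 1 (by omega)) (t0 ∪ t1)ᶜ (ht0c.union ht1c).isOpen_compl
      ((orb_cc D (by omega)).trans hCO) (by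
        intro i hi
        rw [full_nat (D.full 0 (by omega)), zero_add]
        exact hCO (img_cc D (by omega) (Or.inr (by omega)))) (by
        intro i hi
        exact hCO (img_cc D (by omega) (Or.inr (by omega)))) W hW W' hW'
    obtain ⟨Φ, g', hg'U, hg', hΦ1, hΦ2, hΦ3⟩ := hPW s' hs' _ hms
    have hΦC : ∀ y ∈ (t0 ∪ t1)ᶜ, Φ y = y := by
      intro y hy
      exact hΦ3 y (fun h => hy (Or.inl (interior_subset h)))
        (fun h => hy (Or.inr (interior_subset h)))
    -- the new orbit
    have hnew : ∀ i : ℕ, i < m → g'^[i + 1] (x 0 0) = g^[i + 1] s' := by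
      intro i
      induction i with
      | zero =>
        intro _
        show g' (x 0 0) = g s'
        rw [hg', hΦ1]
      | succ i ih2 =>
        intro hi
        rw [Function.iterate_succ_apply', ih2 (by omega), hg', hΦC _ (hmid (i + 1) (by omega) hi),
          Function.iterate_succ_apply' g (i + 1)]
    have hlast : g'^[m + 1] (x 0 0) = x 1 1 := by
      have h2 := hnew (m - 1) (by omega)
      have e : m - 1 + 1 = m := by omega
      rw [e] at h2
      rw [Function.iterate_succ_apply', h2, hg', hΦ2, D.full 1 (by omega)]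
      rfl
    obtain ⟨p', x', D'⟩ := dat_step D hgi (g := g') (fun y hy => by rw [hg', hΦC y (hCO hy)])
      hlast
    exact ih g' hg'U (dat_cyc g'.injective D')

end Pool.Agent.Y929.CO
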